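import Pool.Agent.H730Z.OS.Defs

set_option autoImplicit false

namespace Pool.Agent.H730Z.OS

open scoped OnePoint Matrix
open Topology Set

open Classical in
/-- collapse onto an open subset -/
noncomputable def col {A K : Type} (e : A → K) (x : K) : OnePoint A :=
  if h : ∃ a, e a = x then ((Classical.choose h : A) : OnePoint A) else ∞

lemma col_apply {A K : Type} {e : A → K} (he : Function.Injective e) (a : A) :
    col e (e a) = (a : OnePoint A) := by
  have h : ∃ a', e a' = e a := ⟨a, rfl⟩
  rw [col, dif_pos h, he (Classical.choose_spec h)]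

lemma col_out {A K : Type} {e : A → K} {x : K} (h : ∀ a, e a ≠ x) : col e x = ∞ := by
  rw [col, dif_neg]
  rintro ⟨a, ha⟩
  exact h a ha

lemma col_preimage {A K : Type} {e : A → K} (he : Function.Injective e) (S : Set A) :
    col e ⁻¹' ((↑) '' S) = e '' S := by
  ext x
  constructor
  · rintro ⟨a, ha, hx⟩
    by_cases h : ∃ a', e a' = x
    · obtain ⟨a', rfl⟩ := h
      rw [col_apply he, OnePoint.coe_eq_coe] at hx
      exact ⟨a', hx ▸ ha, rfl⟩
    · rw [col_out (fun a h' => h ⟨a, h'⟩)] at hx
      exact absurd hx (OnePoint.coe_ne_infty a)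
  · rintro ⟨a, ha, rfl⟩
    exact ⟨a, ha, (col_apply he a).symm⟩

lemma col_cont {A K : Type} [TopologicalSpace A] [TopologicalSpace K] [T2Space K] {e : A → K}
    (he : IsOpenEmbedding e) : Continuous (col e) := by
  rw [continuous_def]
  intro U hU
  by_cases h : ∞ ∈ U
  · have h1 := (OnePoint.isOpen_iff_of_mem h).1 hU
    have e1 : Uᶜ = (↑) '' (((↑) ⁻¹' U : Set A)ᶜ) := by
      ext x
      induction x using OnePoint.rec with
      | infty => simp [h]
      | coe a => simp
    rw [← isClosed_compl_iff, ← preimage_compl, e1, col_preimage he.injective]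
    exact (h1.2.image he.continuous).isClosed
  · have h1 := (OnePoint.isOpen_iff_of_notMem h).1 hU
    have e1 : U = (↑) '' ((↑) ⁻¹' U : Set A) := by
      ext x
      induction x using OnePoint.rec with
      | infty => simp [h]
      | coe a => simp
    rw [e1, col_preimage he.injective]
    exact he.isOpenMap _ h1

lemma map_cont {A B : Type} [TopologicalSpace A] [TopologicalSpace B] [T2Space A] [T2Space B]
    {f : A → B} (hf : IsProperMap f) : Continuous (OnePoint.map f) := by
  apply OnePoint.continuous_map hf.continuous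
  rw [Filter.coclosedCompact_eq_cocompact, Filter.coclosedCompact_eq_cocompact]
  rw [Filter.hasBasis_cocompact.tendsto_right_iff]
  intro K hK
  exact (hf.isCompact_preimage hK).compl_mem_cocompact

/-- open embeddings from an explicit partial inverse -/
lemma openEmb_of_inv {A B : Type} [TopologicalSpace A] [TopologicalSpace B] {e : A → B}
    (he : Continuous e) {U : Set B} (hU : IsOpen U) {ψ : B → A} (hψ : ContinuousOn ψ U)
    (h1 : ∀ a, ψ (e a) = a) (h2 : ∀ a, e a ∈ U) (h3 : ∀ b ∈ U, e (ψ b) = b) :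
    IsOpenEmbedding e := by
  refine IsOpenEmbedding.of_continuous_injective_isOpenMap he
    (Function.LeftInverse.injective h1) (fun S hS => ?_)
  have : e '' S = U ∩ ψ ⁻¹' S := by
    ext b
    constructor
    · rintro ⟨a, ha, rfl⟩; exact ⟨h2 a, by rwa [mem_preimage, h1]⟩
    · rintro ⟨hb, hs⟩; exact ⟨ψ b, hs, h3 b hb⟩
  rw [this]
  exact hψ.isOpen_inter_preimage hU hS

instance compactO (n : ℕ) : CompactSpace (O n) := by
  apply isCompact_iff_compactSpace.1
  have h1 : IsClosed ((O n : Set (Matrix (Fin n) (Fin n) ℝ))) := by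
    have : (O n : Set (Matrix (Fin n) (Fin n) ℝ)) = {A | A * Aᵀ = 1} := by
      ext A; exact Matrix.mem_orthogonalGroup_iff _ _
    rw [this]
    exact isClosed_eq (continuous_id.matrix_mul continuous_id.matrix_transpose) continuous_const
  have h2 : IsCompact (Set.pi univ (fun _ : Fin n => Set.pi univ (fun _ : Fin n => Icc (-1 : ℝ) 1))) :=
    isCompact_univ_pi (fun _ => isCompact_univ_pi (fun _ => isCompact_Icc))
  refine h2.of_isClosed_subset h1 (fun A hA i _ j _ => ?_)
  have h3 := congrFun (congrFun ((Matrix.mem_orthogonalGroup_iff _ _).1 hA) i) i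
  rw [Matrix.mul_apply, Matrix.one_apply_eq] at h3
  have h4 : A i j * A i j ≤ 1 := by
    rw [← h3]
    exact Finset.single_le_sum (f := fun k => A i k * Aᵀ k i)
      (fun k _ => mul_self_nonneg (A i k)) (Finset.mem_univ j)
  constructor <;> nlinarith

lemma O_mul_left {n : ℕ} (g : O n) (v : Rn n) : g.1ᵀ *ᵥ (g.1 *ᵥ v) = v := by
  rw [Matrix.mulVec_mulVec, (Matrix.mem_orthogonalGroup_iff' _ _).1 g.2, Matrix.one_mulVec]

lemma O_mul_right {n : ℕ} (g : O n) (v : Rn n) : g.1 *ᵥ (g.1ᵀ *ᵥ v) = v := by
  rw [Matrix.mulVec_mulVec, (Matrix.mem_orthogonalGroup_iff _ _).1 g.2, Matrix.one_mulVec]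

/-- first block -/
def fb {p q n : ℕ} (h : p + q = n) (w : Rn n) : Rn p := fun i => w (Fin.cast h (Fin.castAdd q i))

/-- second block -/
def sb {p q n : ℕ} (h : p + q = n) (w : Rn n) : Rn q := fun i => w (Fin.cast h (Fin.natAdd p i))

lemma fb_cat {p q n : ℕ} (h : p + q = n) (u : Rn p) (v : Rn q) : fb h (cat h u v) = u := by
  funext i; simp [fb, cat]

lemma sb_cat {p q n : ℕ} (h : p + q = n) (u : Rn p) (v : Rn q) : sb h (cat h u v) = v := by
  funext i; simp [sb, cat]

lemma cat_fb_sb {p q n : ℕ} (h : p + q = n) (w : Rn n) : cat h (fb h w) (sb h w) = w := by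
  subst h
  funext i
  refine Fin.addCases (fun j => ?_) (fun j => ?_) i <;> simp [cat, fb, sb]

lemma continuous_cat {p q n : ℕ} (h : p + q = n) :
    Continuous (fun z : Rn p × Rn q => cat h z.1 z.2) := by
  subst h
  refine continuous_pi (fun i => ?_)
  refine Fin.addCases (fun j => ?_) (fun j => ?_) i <;> simp [cat] <;> fun_prop

lemma cat_snoc {p q n : ℕ} (h : p + q = n) (u : Rn p) (v : Rn q) (t : ℝ) :
    cat (show p + (q + 1) = n + 1 by omega) u (Fin.snoc v t : Rn (q + 1)) =
      (Fin.snoc (cat h u v) t : Rn (n + 1)) := by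
  subst h
  have e1 : ∀ (a b : ℕ) (x : Rn a) (y : Rn b), cat rfl x y = Fin.append x y := fun _ _ _ _ => rfl
  rw [e1, e1, Fin.append_snoc]

lemma cat_zero_left {n : ℕ} (h : 0 + n = n) (u : Rn 0) (v : Rn n) : cat h u v = v := by
  funext i
  unfold cat
  have : Fin.cast h.symm i = Fin.natAdd 0 i := by ext; simp
  rw [this, Fin.append_right]

lemma isBlock_one {n : ℕ} (h : 0 + n = n) (g : O n) : IsBlock h 1 g g := by
  intro u v
  rw [cat_zero_left, cat_zero_left]

lemma exists_twist {p q n : ℕ} (h : p + q = n) : ∃ k : O (n + 1), IsTwist h k := by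
  subst h
  let τ : Fin (p + q + 1) → Fin (p + q + 1) := fun i =>
    if hi : (i : ℕ) < p then i else if (i : ℕ) = p then Fin.last _ else ⟨i - 1, by omega⟩
  have hinj : Function.Injective τ := by
    intro a b hab
    simp only [τ] at hab
    apply Fin.ext
    have := a.2
    have := b.2
    split_ifs at hab <;> simp only [Fin.ext_iff, Fin.val_last] at hab <;> omega
  let π : Equiv.Perm (Fin (p + q + 1)) := Equiv.ofBijective τ (Finite.injective_iff_bijective.1 hinj)
  refine ⟨⟨π.permMatrix ℝ, ?_⟩, fun u v t => ?_⟩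
  · rw [Matrix.mem_orthogonalGroup_iff, Matrix.transpose_permMatrix, ← Matrix.permMatrix_mul]
    simp
  · simp only [Matrix.permMatrix_mulVec]
    funext i
    simp only [Function.comp, π, Equiv.ofBijective_apply, τ, cat]
    split_ifs with h1 h2
    · have e1 : i = Fin.castSucc (Fin.castAdd q ⟨i, h1⟩) := by ext; simp
      have e2 : Fin.cast (show p + 1 + q = p + q + 1 by omega).symm i =
          Fin.castAdd q (Fin.castSucc ⟨i, h1⟩) := by ext; simp
      rw [e2, Fin.append_left, Fin.snoc_castSucc]
      conv_lhs => rw [e1, Fin.snoc_castSucc]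
      exact Fin.append_left u v ⟨i, h1⟩
    · have e2 : Fin.cast (show p + 1 + q = p + q + 1 by omega).symm i =
          Fin.castAdd q (Fin.last p) := by ext; simp [h2]
      rw [e2, Fin.append_left, Fin.snoc_last, Fin.snoc_last]
    · have hi := i.2
      have e1 : (⟨i - 1, by omega⟩ : Fin (p + q + 1)) =
          Fin.castSucc (Fin.natAdd p ⟨i - 1 - p, by omega⟩) := by ext; simp; omega
      have e2 : Fin.cast (show p + 1 + q = p + q + 1 by omega).symm i =
          Fin.natAdd (p + 1) ⟨i - 1 - p, by omega⟩ := by ext; simp; omega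
      rw [e2, Fin.append_right, e1, Fin.snoc_castSucc]
      exact Fin.append_right u v _

end Pool.Agent.H730Z.OS
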