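import Mathlib

set_option autoImplicit false

namespace Pool.Agent.H730Z.OS

open scoped OnePoint Matrix

/-- `ℝⁿ`. -/
abbrev Rn (n : ℕ) := Fin n → ℝ

/-- The sphere `Sⁿ`, the one-point compactification of `ℝⁿ`, based at `∞`. -/
abbrev Sph (n : ℕ) := OnePoint (Rn n)

/-- The orthogonal group `O(n)`, with the subspace topology of the matrices. -/
abbrev O (n : ℕ) := Matrix.orthogonalGroup (Fin n) ℝ

/-- Weak Hausdorff: continuous images of compact Hausdorff spaces are closed. -/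
def WeakHausdorff (X : Type) [TopologicalSpace X] : Prop :=
  ∀ (K : Type) [TopologicalSpace K] [CompactSpace K] [T2Space K] (f : K → X),
    Continuous f → IsClosed (Set.range f)

/-- Concatenation `ℝᵖ × ℝ^q → ℝⁿ` for `p + q = n`. -/
def cat {p q n : ℕ} (h : p + q = n) (u : Rn p) (v : Rn q) : Rn n :=
  fun i => Fin.append u v (Fin.cast h.symm i)

/-- `k ∈ O(n)` is the block sum of `g ∈ O(p)` and `g' ∈ O(q)`. -/
def IsBlock {p q n : ℕ} (h : p + q = n) (g : O p) (g' : O q) (k : O n) : Prop :=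
  ∀ u v, k.1 *ᵥ cat h u v = cat h (g.1 *ᵥ u) (g'.1 *ᵥ v)

/-- `k ∈ O(n + 1)` is the shuffle `(u, v, t) ↦ (u, t, v)`. -/
def IsTwist {p q n : ℕ} (h : p + q = n) (k : O (n + 1)) : Prop :=
  ∀ u v t, k.1 *ᵥ (Fin.snoc (cat h u v) t : Rn (n + 1)) =
    cat (show p + 1 + q = n + 1 by omega) (Fin.snoc u t : Rn (p + 1)) v

/-- The iterated structure map `X_n ∧ S^m → X_{n+m}`, evaluated at points of `ℝ^m ⊆ S^m`. -/
def iter {X : ℕ → Type} (σ : ∀ n, X n → OnePoint ℝ → X (n + 1)) (n : ℕ) :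
    ∀ m, X n → Rn m → X (n + m)
  | 0, x, _ => x
  | m + 1, x, v => σ (n + m) (iter σ n m x (Fin.init v)) (v (Fin.last m) : ℝ)

/-- Orthogonal spectra of compactly generated weak Hausdorff spaces. A based map out of
`X_n ∧ S¹` is given as a continuous map on `X_n × S¹` that is based in each variable. -/
structure OSp where
  X : ℕ → Type
  [top : ∀ n, TopologicalSpace (X n)]
  cg : ∀ n, CompactlyGeneratedSpace (X n)
  wh : ∀ n, WeakHausdorff (X n)
  pt : ∀ n, X n
  act : ∀ n, O n → X n → X n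
  act_one : ∀ n x, act n 1 x = x
  act_mul : ∀ n g h x, act n (g * h) x = act n g (act n h x)
  act_pt : ∀ n g, act n g (pt n) = pt n
  act_cont : ∀ n, Continuous (fun z : O n × X n => act n z.1 z.2)
  σ : ∀ n, X n → OnePoint ℝ → X (n + 1)
  σ_cont : ∀ n, Continuous (fun z : X n × OnePoint ℝ => σ n z.1 z.2)
  σ_pt : ∀ n t, σ n (pt n) t = pt (n + 1)
  σ_infty : ∀ n x, σ n x ∞ = pt (n + 1)
  equivariant : ∀ n m (g : O n) (h : O m) (k : O (n + m)), IsBlock rfl g h k →
    ∀ x v, iter σ n m (act n g x) (h.1 *ᵥ v) = act (n + m) k (iter σ n m x v)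

attribute [instance] OSp.top

/-- Morphisms of orthogonal spectra. -/
structure Hom (X Y : OSp) where
  f : ∀ n, X.X n → Y.X n
  cont : ∀ n, Continuous (f n)
  map_pt : ∀ n, f n (X.pt n) = Y.pt n
  map_act : ∀ n g x, f n (X.act n g x) = Y.act n g (f n x)
  map_σ : ∀ n x t, f (n + 1) (X.σ n x t) = Y.σ n (f n x) t

/-- Bimorphisms `(X, Y) → Z`: equivariant based maps `X_p ∧ Y_q → Z_{p+q}` (smash product of
compactly generated spaces, so continuity is tested on compact Hausdorff spaces) that are compatible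
with the structure maps in both variables. -/
structure Bimor (X Y Z : OSp) where
  b : ∀ p q n, p + q = n → X.X p → Y.X q → Z.X n
  cont : ∀ p q n h (K : Type) [TopologicalSpace K] [CompactSpace K] [T2Space K]
    (u : K → X.X p) (w : K → Y.X q), Continuous u → Continuous w →
      Continuous (fun a => b p q n h (u a) (w a))
  pt_left : ∀ p q n h y, b p q n h (X.pt p) y = Z.pt n
  pt_right : ∀ p q n h x, b p q n h x (Y.pt q) = Z.pt n
  equivariant : ∀ p q n h g g' k, IsBlock h g g' k →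
    ∀ x y, b p q n h (X.act p g x) (Y.act q g' y) = Z.act n k (b p q n h x y)
  σ_right : ∀ p q n (h : p + q = n) x y t,
    b p (q + 1) (n + 1) (by omega) x (Y.σ q y t) = Z.σ n (b p q n h x y) t
  σ_left : ∀ p q n (h : p + q = n) k, IsTwist h k → ∀ x y t,
    b (p + 1) q (n + 1) (by omega) (X.σ p x t) y = Z.act (n + 1) k (Z.σ n (b p q n h x y) t)

/-- `b : (X, Y) → Z` is a universal bimorphism, that is, it exhibits `Z` as the smash product
(Day convolution) `X ∧ Y`. -/
def IsSmash {X Y Z : OSp} (b : Bimor X Y Z) : Prop :=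
  ∀ (W : OSp) (c : Bimor X Y W), ∃! φ : Hom Z W,
    ∀ p q n h x y, φ.f n (b.b p q n h x y) = c.b p q n h x y

/-- Representatives of elements of `π_k X`: based maps `S^{k+n} → X_n`. -/
structure Rep (X : OSp) (k : ℤ) where
  n : ℕ
  m : ℕ
  deg : (m : ℤ) = k + n
  map : C(Sph m, X.X n)
  based : map ∞ = X.pt n

/-- The relation generating the colimit: based homotopy, and suspension followed by the structure
map. -/
inductive Rel (X : OSp) (k : ℤ) : Rep X k → Rep X k → Prop
  | htpy (n m : ℕ) (deg : (m : ℤ) = k + n) (f g : C(Sph m, X.X n)) (hf : f ∞ = X.pt n)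
      (hg : g ∞ = X.pt n) : f.HomotopicRel g {∞} → Rel X k ⟨n, m, deg, f, hf⟩ ⟨n, m, deg, g, hg⟩
  | stab (n m : ℕ) (deg : (m : ℤ) = k + n) (deg' : ((m + 1 : ℕ) : ℤ) = k + (n + 1 : ℕ))
      (f : C(Sph m, X.X n)) (g : C(Sph (m + 1), X.X (n + 1))) (hf : f ∞ = X.pt n)
      (hg : g ∞ = X.pt (n + 1)) :
      (∀ (v : Rn m) (t : ℝ), g ((Fin.snoc v t : Rn (m + 1)) : Sph (m + 1)) = X.σ n (f v) t) →
      Rel X k ⟨n, m, deg, f, hf⟩ ⟨n + 1, m + 1, deg', g, hg⟩

/-- The stable homotopy group `π_k X = colim_n π_{k+n} X_n`, as a set. -/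
def StablePi (X : OSp) (k : ℤ) : Type := Quot (Rel X k)

/-- Composition of a representative with a morphism. -/
def Rep.push {X Y : OSp} (φ : Hom X Y) {k : ℤ} (a : Rep X k) : Rep Y k :=
  ⟨a.n, a.m, a.deg, (⟨φ.f a.n, φ.cont a.n⟩ : C(X.X a.n, Y.X a.n)).comp a.map,
    (congrArg (φ.f a.n) a.based).trans (φ.map_pt a.n)⟩

theorem Rel.push {X Y : OSp} (φ : Hom X Y) {k : ℤ} (a b : Rep X k) (h : Rel X k a b) :
    Rel Y k (a.push φ) (b.push φ) := by
  cases h with
  | htpy n m deg f g hf hg H => exact Rel.htpy n m deg _ _ _ _ (H.comp_continuousMap _)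
  | stab n m deg deg' f g hf hg H =>
    exact Rel.stab n m deg deg' _ _ _ _ (fun v t => (congrArg (φ.f _) (H v t)).trans (φ.map_σ ..))

/-- The map induced on `π_k`. -/
def StablePi.map {X Y : OSp} (φ : Hom X Y) (k : ℤ) : StablePi X k → StablePi Y k :=
  Quot.map (Rep.push φ) (Rel.push φ)

/-- Stable equivalences: morphisms that are bijective on all `π_k`. -/
def IsStableEquiv {X Y : OSp} (φ : Hom X Y) : Prop :=
  ∀ k : ℤ, Function.Bijective (StablePi.map φ k)

end Pool.Agent.H730Z.OS
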