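import Pool.Agent.H730Z.OS.Col

set_option autoImplicit false
set_option linter.unusedSectionVars false

namespace Pool.Agent.H730Z.OS

open scoped OnePoint Matrix
open Topology Set

variable {T : Type} [TopologicalSpace T] [LocallyCompactSpace T] [T2Space T]

/-- the embedding used for the structure map -/
def eσ (s : T → T) (n : ℕ) (z : Rn (n + 1) × T) : OnePoint (Rn n × T) × OnePoint ℝ :=
  (((Fin.init z.1, s z.2) : Rn n × T), (z.1 (Fin.last n) : ℝ))

lemma eσ_open {s : T → T} (hs : IsOpenEmbedding s) (n : ℕ) : IsOpenEmbedding (eσ s n) := by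
  let H : Rn (n + 1) × T ≃ₜ (Rn n × T) × ℝ :=
    { toFun := fun z => ((Fin.init z.1, z.2), z.1 (Fin.last n))
      invFun := fun z => (Fin.snoc z.1.1 z.2, z.1.2)
      left_inv := fun z => by simp
      right_inv := fun z => by simp
      continuous_toFun := by fun_prop
      continuous_invFun := by fun_prop }
  exact (OnePoint.isOpenEmbedding_coe.prodMap OnePoint.isOpenEmbedding_coe).comp
    (((IsOpenEmbedding.id.prodMap hs).prodMap IsOpenEmbedding.id).comp H.isOpenEmbedding)

/-- structure map -/
noncomputable def sσ (s : T → T) (n : ℕ) (x : OnePoint (Rn n × T)) (t : OnePoint ℝ) :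
    OnePoint (Rn (n + 1) × T) := col (eσ s n) (x, t)

lemma sσ_infty_left (s : T → T) (n : ℕ) (t : OnePoint ℝ) : sσ s n ∞ t = ∞ :=
  col_out (fun _ h => OnePoint.coe_ne_infty _ (congrArg Prod.fst h))

lemma sσ_infty_right (s : T → T) (n : ℕ) (x : OnePoint (Rn n × T)) : sσ s n x ∞ = ∞ :=
  col_out (fun _ h => OnePoint.coe_ne_infty _ (congrArg Prod.snd h))

lemma sσ_some {s : T → T} (hs : IsOpenEmbedding s) (n : ℕ) (v : Rn n) (τ : T) (t : ℝ) :
    sσ s n ((v, s τ) : Rn n × T) t = ((Fin.snoc v t, τ) : Rn (n + 1) × T) := by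
  have := col_apply (eσ_open hs n).injective ((Fin.snoc v t, τ) : Rn (n + 1) × T)
  simpa [eσ, sσ] using this

lemma sσ_out {s : T → T} (n : ℕ) (v : Rn n) {τ : T} (h : τ ∉ range s) (t : OnePoint ℝ) :
    sσ s n ((v, τ) : Rn n × T) t = ∞ := by
  refine col_out (fun a ha => h ?_)
  have := congrArg Prod.fst ha
  simp only [eσ, OnePoint.coe_eq_coe, Prod.mk.injEq] at this
  exact ⟨_, this.2⟩

/-- the action -/
def sact (T : Type) (n : ℕ) (g : O n) : OnePoint (Rn n × T) → OnePoint (Rn n × T) :=
  OnePoint.map (fun z => (g.1 *ᵥ z.1, z.2))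

lemma sact_cont (n : ℕ) : Continuous (fun z : O n × OnePoint (Rn n × T) => sact T n z.1 z.2) := by
  let H : O n × (Rn n × T) ≃ₜ O n × (Rn n × T) :=
    { toFun := fun z => (z.1, (z.1.1ᵀ *ᵥ z.2.1, z.2.2))
      invFun := fun z => (z.1, (z.1.1 *ᵥ z.2.1, z.2.2))
      left_inv := fun z => by simp only [O_mul_right]
      right_inv := fun z => by simp only [O_mul_left]
      continuous_toFun := continuous_fst.prodMk
        (((continuous_subtype_val.comp continuous_fst).matrix_transpose.matrix_mulVec
          (continuous_fst.comp continuous_snd)).prodMk (continuous_snd.comp continuous_snd))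
      continuous_invFun := continuous_fst.prodMk
        (((continuous_subtype_val.comp continuous_fst).matrix_mulVec
          (continuous_fst.comp continuous_snd)).prodMk (continuous_snd.comp continuous_snd)) }
  have he : IsOpenEmbedding (Prod.map id ((↑) : Rn n × T → OnePoint (Rn n × T)) ∘ H) :=
    (IsOpenEmbedding.id.prodMap OnePoint.isOpenEmbedding_coe).comp H.isOpenEmbedding
  have hc := (map_cont (isProperMap_snd_of_compactSpace (X := O n) (Y := Rn n × T))).comp
    (col_cont he)
  refine hc.congr (fun z => ?_)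
  obtain ⟨g, x⟩ := z
  induction x using OnePoint.rec with
  | infty =>
    rw [Function.comp_apply, col_out]
    · rfl
    · intro a h; exact OnePoint.coe_ne_infty _ (congrArg Prod.snd h)
  | coe w =>
    have := col_apply he.injective (g, (g.1 *ᵥ w.1, w.2))
    simp only [Function.comp_apply, H, Homeomorph.homeomorph_mk_coe, Equiv.coe_fn_mk, Prod.map,
      id, O_mul_left] at this
    rw [Function.comp_apply]
    erw [this]
    rfl

lemma iter_infty (s : T → T) (n : ℕ) : ∀ m (w : Rn m), iter (sσ s) n m ∞ w = ∞
  | 0, _ => rfl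
  | m + 1, w => by rw [iter, iter_infty s n m, sσ_infty_left]

lemma iter_some {s : T → T} (hs : IsOpenEmbedding s) (n : ℕ) (v : Rn n) :
    ∀ m (τ : T) (w : Rn m), iter (sσ s) n m ((v, s^[m] τ) : Rn n × T) w =
      ((cat rfl v w, τ) : Rn (n + m) × T)
  | 0, τ, w => by
    have : cat rfl v w = v := by funext i; exact Fin.append_left v w i
    rw [this]; rfl
  | m + 1, τ, w => by
    rw [iter, Function.iterate_succ_apply, iter_some hs n v m, sσ_some hs, ← cat_snoc rfl,
      Fin.snoc_init_self]

lemma iter_out {s : T → T} (hs : IsOpenEmbedding s) (n : ℕ) (v : Rn n) :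
    ∀ m (τ : T) (w : Rn m), τ ∉ range s^[m] → iter (sσ s) n m ((v, τ) : Rn n × T) w = ∞
  | 0, τ, w, h => absurd ⟨τ, rfl⟩ h
  | m + 1, τ, w, h => by
    rw [iter]
    by_cases h1 : τ ∈ range s^[m]
    · obtain ⟨τ', rfl⟩ := h1
      rw [iter_some hs, sσ_out]
      rintro ⟨τ'', rfl⟩
      exact h ⟨τ'', rfl⟩
    · rw [iter_out hs n v m τ _ h1, sσ_infty_left]

/-- the spectrum attached to an open self-embedding of a locally compact space -/
noncomputable def E (s : T → T) (hs : IsOpenEmbedding s) : OSp where
  X n := OnePoint (Rn n × T)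
  cg _ := inferInstance
  wh _ := fun _ _ _ _ _ hf => (isCompact_range hf).isClosed
  pt _ := ∞
  act := sact T
  act_one n x := by
    induction x using OnePoint.rec <;> simp [sact]
  act_mul n g h x := by
    induction x using OnePoint.rec <;> simp [sact]
  act_pt _ _ := rfl
  act_cont := sact_cont
  σ := sσ s
  σ_cont n := col_cont (eσ_open hs n)
  σ_pt := sσ_infty_left s
  σ_infty := sσ_infty_right s
  equivariant n m g h k hk x v := by
    induction x using OnePoint.rec with
    | infty => simp [sact, iter_infty]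
    | coe z =>
      obtain ⟨u, τ⟩ := z
      by_cases h1 : τ ∈ range s^[m]
      · obtain ⟨τ', rfl⟩ := h1
        simp only [sact, OnePoint.map_some, iter_some hs, hk u v]
      · simp only [sact, OnePoint.map_some, iter_out hs _ _ _ _ _ h1, OnePoint.map_infty]

variable {T' : Type} [TopologicalSpace T'] [LocallyCompactSpace T'] [T2Space T']

/-- the embedding used for the universal bimorphism -/
def eb (T : Type) (s : T' → T') {p q n : ℕ} (h : p + q = n) (z : Rn n × (T × T')) :
    OnePoint (Rn p × T) × OnePoint (Rn q × T') :=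
  (((fb h z.1, z.2.1) : Rn p × T), ((sb h z.1, s^[p] z.2.2) : Rn q × T'))

lemma iterate_open {s : T' → T'} (hs : IsOpenEmbedding s) : ∀ p, IsOpenEmbedding s^[p]
  | 0 => IsOpenEmbedding.id
  | p + 1 => (iterate_open hs p).comp hs

lemma eb_open {s : T' → T'} (hs : IsOpenEmbedding s) {p q n : ℕ} (h : p + q = n) :
    IsOpenEmbedding (eb T s h) := by
  let H : Rn n × (T × T') ≃ₜ (Rn p × T) × (Rn q × T') :=
    { toFun := fun z => ((fb h z.1, z.2.1), (sb h z.1, z.2.2))
      invFun := fun z => (cat h z.1.1 z.2.1, (z.1.2, z.2.2))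
      left_inv := fun z => by simp [cat_fb_sb]
      right_inv := fun z => by simp [fb_cat, sb_cat]
      continuous_toFun := by unfold fb sb; fun_prop
      continuous_invFun := ((continuous_cat h).comp
        ((continuous_fst.comp continuous_fst).prodMk (continuous_fst.comp continuous_snd))).prodMk
        (by fun_prop) }
  exact (OnePoint.isOpenEmbedding_coe.prodMap OnePoint.isOpenEmbedding_coe).comp
    ((IsOpenEmbedding.id.prodMap (IsOpenEmbedding.id.prodMap (iterate_open hs p))).comp
      H.isOpenEmbedding)

/-- the pairing -/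
noncomputable def bb (T : Type) (s : T' → T') {p q n : ℕ} (h : p + q = n)
    (x : OnePoint (Rn p × T)) (y : OnePoint (Rn q × T')) : OnePoint (Rn n × (T × T')) :=
  col (eb T s h) (x, y)

lemma bb_infty_left (s : T' → T') {p q n : ℕ} (h : p + q = n) (y : OnePoint (Rn q × T')) :
    bb T s h ∞ y = ∞ :=
  col_out (fun _ h => OnePoint.coe_ne_infty _ (congrArg Prod.fst h))

lemma bb_infty_right (s : T' → T') {p q n : ℕ} (h : p + q = n) (x : OnePoint (Rn p × T)) :
    bb T s h x ∞ = ∞ :=
  col_out (fun _ h => OnePoint.coe_ne_infty _ (congrArg Prod.snd h))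

lemma bb_some {s : T' → T'} (hs : IsOpenEmbedding s) {p q n : ℕ} (h : p + q = n) (u : Rn p) (τ : T)
    (v : Rn q) (τ' : T') : bb T s h ((u, τ) : Rn p × T) ((v, s^[p] τ') : Rn q × T') =
      ((cat h u v, (τ, τ')) : Rn n × (T × T')) := by
  have := col_apply (eb_open (T := T) hs h).injective ((cat h u v, (τ, τ')) : Rn n × (T × T'))
  simpa [eb, bb, fb_cat, sb_cat] using this

lemma bb_out {s : T' → T'} {p q n : ℕ} (h : p + q = n) (x : OnePoint (Rn p × T)) (v : Rn q)
    {τ' : T'} (hτ : τ' ∉ range s^[p]) : bb T s h x ((v, τ') : Rn q × T') = ∞ := by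
  refine col_out (fun a ha => hτ ?_)
  have := congrArg Prod.snd ha
  simp only [eb, OnePoint.coe_eq_coe, Prod.mk.injEq] at this
  exact ⟨_, this.2⟩

lemma σ_bb_out {s : T' → T'} (hs : IsOpenEmbedding s) {p q n : ℕ} (h : p + q = n)
    (x : OnePoint (Rn p × T)) (v : Rn q) {τ' : T'} (hτ : τ' ∉ range s^[p + 1]) (t : OnePoint ℝ) :
    sσ (Prod.map id s) n (bb T s h x ((v, τ') : Rn q × T')) t = ∞ := by
  by_cases h1 : τ' ∈ range s^[p]
  · obtain ⟨τ'', rfl⟩ := h1
    induction x using OnePoint.rec with
    | infty => rw [bb_infty_left, sσ_infty_left]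
    | coe z =>
      obtain ⟨u, τ⟩ := z
      rw [bb_some hs, sσ_out]
      rintro ⟨a, ha⟩
      have : s a.2 = τ'' := congrArg Prod.snd ha
      exact hτ ⟨a.2, by rw [Function.iterate_succ_apply, this]⟩
  · rw [bb_out h x v h1, sσ_infty_left]

/-- the universal bimorphism -/
noncomputable def BB (T : Type) [TopologicalSpace T] [LocallyCompactSpace T] [T2Space T]
    (s : T' → T') (hs : IsOpenEmbedding s) :
    Bimor (E (id : T → T) IsOpenEmbedding.id) (E s hs)
      (E (Prod.map id s : T × T' → T × T') (IsOpenEmbedding.id.prodMap hs)) where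
  b p q n h := bb T s h
  cont p q n h K _ _ _ u w hu hw := (col_cont (eb_open hs h)).comp (hu.prodMk hw)
  pt_left p q n h := bb_infty_left s h
  pt_right p q n h := bb_infty_right s h
  equivariant p q n h g g' k hk x y := by
    change bb T s h (sact T p g x) (sact T' q g' y) = sact (T × T') n k (bb T s h x y)
    induction x using OnePoint.rec with
    | infty => simp [sact, bb_infty_left]
    | coe x =>
      induction y using OnePoint.rec with
      | infty => simp [sact, bb_infty_right]
      | coe y =>
        obtain ⟨u, τ⟩ := x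
        obtain ⟨v, τ'⟩ := y
        by_cases h1 : τ' ∈ range s^[p]
        · obtain ⟨τ'', rfl⟩ := h1
          simp only [sact, OnePoint.map_some, bb_some hs, hk u v]
        · simp only [sact, OnePoint.map_some, bb_out h _ _ h1, OnePoint.map_infty]
  σ_right p q n h x y t := by
    change bb T s _ x (sσ s q y t) = sσ (Prod.map id s) n (bb T s h x y) t
    induction t using OnePoint.rec with
    | infty => rw [sσ_infty_right, sσ_infty_right, bb_infty_right]
    | coe t =>
    induction x using OnePoint.rec with
    | infty => rw [bb_infty_left, bb_infty_left, sσ_infty_left]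
    | coe x =>
      induction y using OnePoint.rec with
      | infty => rw [sσ_infty_left, bb_infty_right, bb_infty_right, sσ_infty_left]
      | coe y =>
        obtain ⟨u, τ⟩ := x
        obtain ⟨v, τ'⟩ := y
        by_cases h1 : τ' ∈ range s^[p + 1]
        · obtain ⟨τ'', rfl⟩ := h1
          conv_lhs => rw [Function.iterate_succ_apply', sσ_some hs, bb_some hs]
          rw [Function.iterate_succ_apply, bb_some hs, cat_snoc h]
          exact (sσ_some (IsOpenEmbedding.id.prodMap hs) n _ (τ, τ'') t).symm
        · rw [σ_bb_out hs h _ _ h1]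
          by_cases h2 : τ' ∈ range s
          · obtain ⟨τ1, rfl⟩ := h2
            rw [sσ_some hs, bb_out]
            rintro ⟨τ2, rfl⟩
            exact h1 ⟨τ2, Function.iterate_succ_apply' _ _ _⟩
          · rw [sσ_out _ _ h2, bb_infty_right]
  σ_left p q n h k hk x y t := by
    change bb T s _ (sσ id p x t) y =
      sact (T × T') (n + 1) k (sσ (Prod.map id s) n (bb T s h x y) t)
    induction t using OnePoint.rec with
    | infty => rw [sσ_infty_right, sσ_infty_right, bb_infty_left]; rfl
    | coe t =>
    induction x using OnePoint.rec with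
    | infty => rw [sσ_infty_left, bb_infty_left, bb_infty_left, sσ_infty_left]; rfl
    | coe x =>
      induction y using OnePoint.rec with
      | infty => rw [bb_infty_right, bb_infty_right, sσ_infty_left]; rfl
      | coe y =>
        obtain ⟨u, τ⟩ := x
        obtain ⟨v, τ'⟩ := y
        have e0 := sσ_some (IsOpenEmbedding.id (X := T)) p u τ t
        rw [id] at e0
        rw [e0]
        by_cases h1 : τ' ∈ range s^[p + 1]
        · obtain ⟨τ'', rfl⟩ := h1
          rw [bb_some hs, Function.iterate_succ_apply, bb_some hs]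
          have := sσ_some (IsOpenEmbedding.id.prodMap hs) n (cat h u v) (τ, τ'') t
          simp only [Prod.map, id] at this
          rw [this]
          simp only [sact, OnePoint.map_some, hk u v t]
        · rw [σ_bb_out hs h _ _ h1, bb_out _ _ _ h1]; rfl

lemma bb_surj {s : T' → T'} (hs : IsOpenEmbedding s) (n : ℕ) (z : OnePoint (Rn n × (T × T'))) :
    ∃ x y, bb T s (Nat.zero_add n) x y = z := by
  induction z using OnePoint.rec with
  | infty => exact ⟨∞, ∞, bb_infty_left _ _ _⟩
  | coe z =>
    refine ⟨((0, z.2.1) : Rn 0 × T), ((z.1, z.2.2) : Rn n × T'), ?_⟩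
    have := bb_some (T := T) hs (Nat.zero_add n) 0 z.2.1 z.1 z.2.2
    rwa [cat_zero_left] at this

theorem BB_smash (s : T' → T') (hs : IsOpenEmbedding s) : IsSmash (BB T s hs) := by
  intro W c
  let φ0 : ∀ n, OnePoint (Rn n × (T × T')) → W.X n := fun n z =>
    z.elim (W.pt n) (fun z => c.b 0 n n (Nat.zero_add n) (((0, z.2.1) : Rn 0 × T) : OnePoint _)
      (((z.1, z.2.2) : Rn n × T') : OnePoint _))
  have h0 : ∀ n x y, φ0 n (bb T s (Nat.zero_add n) x y) = c.b 0 n n (Nat.zero_add n) x y := by
    intro n x y
    induction x using OnePoint.rec with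
    | infty => rw [bb_infty_left]; exact (c.pt_left 0 n n _ y).symm
    | coe x =>
      induction y using OnePoint.rec with
      | infty => rw [bb_infty_right]; exact (c.pt_right 0 n n _ _).symm
      | coe y =>
        have := bb_some (T := T) hs (Nat.zero_add n) x.1 x.2 y.1 y.2
        rw [cat_zero_left] at this
        have e : x = (0, x.2) := Prod.ext (Subsingleton.elim _ _) rfl
        erw [this]
        rw [e]
        rfl
  let φ : Hom (E (Prod.map id s : T × T' → T × T') (IsOpenEmbedding.id.prodMap hs)) W :=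
    { f := φ0
      cont := fun n => by
        have hq : IsQuotientMap (col (eb T s (Nat.zero_add n))) :=
          (col_cont (eb_open hs _)).isClosedMap.isQuotientMap (col_cont (eb_open hs _))
            (fun z => by
              obtain ⟨x, y, h⟩ := bb_surj hs n z
              exact ⟨(x, y), h⟩)
        refine hq.continuous_iff.2 ?_
        have := c.cont 0 n n (Nat.zero_add n) (OnePoint (Rn 0 × T) × OnePoint (Rn n × T'))
          Prod.fst Prod.snd continuous_fst continuous_snd
        exact this.congr (fun z => (h0 n z.1 z.2).symm)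
      map_pt := fun _ => rfl
      map_act := fun n g z => by
        obtain ⟨x, y, rfl⟩ := bb_surj hs n z
        have e1 := (BB T s hs).equivariant 0 n n (Nat.zero_add n) 1 g g (isBlock_one _ g) x y
        have e2 := c.equivariant 0 n n (Nat.zero_add n) 1 g g (isBlock_one _ g) x y
        rw [h0, ← e2, ← h0]
        exact congrArg (φ0 n) e1.symm
      map_σ := fun n z t => by
        obtain ⟨x, y, rfl⟩ := bb_surj hs n z
        have e1 := (BB T s hs).σ_right 0 n n (Nat.zero_add n) x y t
        have e2 := c.σ_right 0 n n (Nat.zero_add n) x y t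
        rw [h0, ← e2, ← h0]
        exact congrArg (φ0 (n + 1)) e1.symm }
  refine ⟨φ, ?_, ?_⟩
  · intro p
    induction p with
    | zero =>
      intro q n h x y
      obtain rfl : q = n := by omega
      exact h0 q x y
    | succ p ih =>
      intro q n h x y
      obtain ⟨n, rfl⟩ : ∃ n', n = n' + 1 := ⟨p + q, by omega⟩
      have h' : p + q = n := by omega
      obtain ⟨k, hk⟩ := exists_twist h'
      obtain ⟨x', t, rfl⟩ : ∃ x' t, x = (E (id : T → T) IsOpenEmbedding.id).σ p x' t := by
        induction x using OnePoint.rec with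
        | infty => exact ⟨∞, ∞, (sσ_infty_right _ _ _).symm⟩
        | coe z =>
          refine ⟨(((Fin.init z.1, z.2) : Rn p × T) : OnePoint _), (z.1 (Fin.last p) : ℝ), ?_⟩
          have := sσ_some (IsOpenEmbedding.id (X := T)) p (Fin.init z.1) z.2 (z.1 (Fin.last p))
          rw [Fin.snoc_init_self] at this
          exact this.symm
      rw [(BB T s hs).σ_left p q n h' k hk, c.σ_left p q n h' k hk, φ.map_act, φ.map_σ, ih]
  · intro ψ hψ
    have : ψ.f = φ.f := by
      funext n z
      obtain ⟨x, y, rfl⟩ := bb_surj hs n z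
      exact (hψ 0 n n (Nat.zero_add n) x y).trans (h0 n x y).symm
    cases ψ
    simp only at this
    subst this
    rfl

end Pool.Agent.H730Z.OS
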