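import Pool.Agent.H730Z.OS.Col
import Pool.Agent.Helper31.GZ.Brouwer

set_option autoImplicit false

namespace Pool.Agent.H730Z.OS

open scoped OnePoint Matrix unitInterval
open Topology Set

/-- the family of open embeddings -/
noncomputable def ef {n : ℕ} (c κ : Rn n) (t : ℝ) (v : Rn n) : Rn n :=
  fun i => t * c i + v i / (1 + t * κ i * |v i|)

lemma ef_zero {n : ℕ} (c κ : Rn n) (v : Rn n) : ef c κ 0 v = v := by
  funext i; simp [ef]

lemma ef_open {n : ℕ} (c κ : Rn n) (hκ : ∀ i, 0 ≤ κ i) :
    IsOpenEmbedding (fun z : I × Rn n => (z.1, ef c κ z.1 z.2)) := by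
  have hpos : ∀ (t : I) (i : Fin n) (x : ℝ), 0 < 1 + (t : ℝ) * κ i * |x| := fun t i x => by
    have := mul_nonneg (mul_nonneg t.2.1 (hκ i)) (abs_nonneg x)
    linarith
  refine openEmb_of_inv (U := {z : I × Rn n | ∀ i, (z.1 : ℝ) * κ i * |z.2 i - z.1 * c i| < 1})
    (ψ := fun z => (z.1, fun i => (z.2 i - z.1 * c i) /
      (1 - (z.1 : ℝ) * κ i * |z.2 i - z.1 * c i|))) ?_ ?_ ?_ ?_ ?_ ?_
  · refine continuous_fst.prodMk (continuous_pi (fun i => ?_))
    unfold ef
    refine Continuous.add (by fun_prop) (Continuous.div (by fun_prop) (by fun_prop) ?_)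
    intro z; exact (hpos _ _ _).ne'
  · rw [Set.ofPred_forall]
    exact isOpen_iInter_of_finite (fun i => isOpen_lt (by fun_prop) continuous_const)
  · refine continuousOn_fst.prodMk (continuousOn_pi.2 (fun i => ?_))
    refine ContinuousOn.div (by fun_prop) (by fun_prop) (fun z hz => ?_)
    have := hz i
    linarith
  · rintro ⟨t, v⟩
    refine Prod.ext rfl (funext (fun i => ?_))
    have h := hpos t i (v i)
    simp only [ef, add_sub_cancel_left, abs_div, abs_of_pos h]
    have : 1 - (t : ℝ) * κ i * (|v i| / (1 + t * κ i * |v i|)) = 1 / (1 + t * κ i * |v i|) := by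
      field_simp; ring
    rw [this]
    field_simp
  · rintro ⟨t, v⟩ i
    have h := hpos t i (v i)
    simp only [ef, add_sub_cancel_left, abs_div, abs_of_pos h]
    rw [← mul_div_assoc, div_lt_one h]
    linarith
  · rintro ⟨t, u⟩ hu
    refine Prod.ext rfl (funext (fun i => ?_))
    have h : 0 < 1 - (t : ℝ) * κ i * |u i - t * c i| := by have := hu i; simp only at this; linarith
    simp only [ef, abs_div, abs_of_pos h]
    have : 1 + (t : ℝ) * κ i * (|u i - t * c i| / (1 - t * κ i * |u i - t * c i|)) =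
        1 / (1 - t * κ i * |u i - t * c i|) := by
      field_simp; ring
    rw [this]
    field_simp
    ring

lemma slice_open {A : Type} [TopologicalSpace A] {e : I → A → A}
    (he : IsOpenEmbedding (fun z : I × A => (z.1, e z.1 z.2))) (t : I) : IsOpenEmbedding (e t) := by
  refine IsOpenEmbedding.of_continuous_injective_isOpenMap
    (continuous_snd.comp (he.continuous.comp (Continuous.prodMk_right t))) (fun a b h => ?_)
    (fun S hS => ?_)
  · have := @he.injective (t, a) (t, b) (Prod.ext rfl h)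
    exact congrArg Prod.snd this
  · have h1 := (he.isOpenMap _ (isOpen_univ.prod hS)).preimage (Continuous.prodMk_right t)
    convert h1 using 1
    ext b
    constructor
    · rintro ⟨a, ha, rfl⟩; exact ⟨(t, a), ⟨trivial, ha⟩, rfl⟩
    · rintro ⟨⟨t', a⟩, ha, h⟩
      simp only [Prod.mk.injEq] at h
      obtain ⟨rfl, rfl⟩ := h
      exact ⟨a, ha.2, rfl⟩

lemma fam_prod {A T : Type} [TopologicalSpace A] [TopologicalSpace T] {e : I → A → A}
    (he : IsOpenEmbedding (fun z : I × A => (z.1, e z.1 z.2))) :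
    IsOpenEmbedding (fun z : I × (A × T) => (z.1, (e z.1 z.2.1, z.2.2))) :=
  (Homeomorph.prodAssoc I A T).isOpenEmbedding.comp ((he.prodMap IsOpenEmbedding.id).comp
    (Homeomorph.prodAssoc I A T).symm.isOpenEmbedding)

/-- collapsing along a family of open embeddings is a homotopy -/
lemma exists_fam {A : Type} [TopologicalSpace A] [T2Space A] [LocallyCompactSpace A]
    {e : I → A → A} (he : IsOpenEmbedding (fun z : I × A => (z.1, e z.1 z.2))) :
    ∃ C : C(I × OnePoint A, OnePoint A), ∀ t x, C (t, x) = col (fun a => (e t a : OnePoint A)) x := by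
  have h1 : IsOpenEmbedding (fun z : I × A => (z.1, (e z.1 z.2 : OnePoint A))) :=
    (IsOpenEmbedding.id.prodMap OnePoint.isOpenEmbedding_coe).comp he
  refine ⟨⟨_, (map_cont (isProperMap_snd_of_compactSpace (X := I) (Y := A))).comp
    (col_cont h1)⟩, fun t x => ?_⟩
  have h2 : Function.Injective (fun a => (e t a : OnePoint A)) :=
    OnePoint.coe_injective.comp (slice_open he t).injective
  by_cases h : ∃ a, (e t a : OnePoint A) = x
  · obtain ⟨a, rfl⟩ := h
    rw [col_apply h2]
    exact congrArg (OnePoint.map Prod.snd) (col_apply h1.injective (t, a))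
  · rw [col_out (fun a ha => h ⟨a, ha⟩)]
    refine congrArg (OnePoint.map Prod.snd) (col_out (e := fun z : I × A =>
      (z.1, (e z.1 z.2 : OnePoint A))) (x := (t, x)) ?_)
    rintro ⟨t', a⟩ ha
    simp only [Prod.mk.injEq] at ha
    obtain ⟨rfl, rfl⟩ := ha
    exact h ⟨a, rfl⟩

lemma col_coe {A : Type} (x : OnePoint A) : col (fun a : A => (a : OnePoint A)) x = x := by
  induction x using OnePoint.rec with
  | infty => exact col_out (fun a => OnePoint.coe_ne_infty a)
  | coe a => exact col_apply OnePoint.coe_injective a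

lemma sphere_not_contr {d : ℕ} (p : Metric.sphere (0 : EuclideanSpace ℝ (Fin d)) 1)
    (H : C(I × Metric.sphere (0 : EuclideanSpace ℝ (Fin d)) 1,
      Metric.sphere (0 : EuclideanSpace ℝ (Fin d)) 1))
    (h0 : ∀ x, H (0, x) = p) (h1 : ∀ x, H (1, x) = x) : False := by
  classical
  set V := EuclideanSpace ℝ (Fin d)
  let u : V → Metric.sphere (0 : V) 1 := fun y =>
    if h : y = 0 then p else ⟨‖y‖⁻¹ • y, by
      rw [mem_sphere_zero_iff_norm, norm_smul, norm_inv, norm_norm,
        inv_mul_cancel₀ (norm_ne_zero_iff.2 h)]⟩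
  let G : Metric.closedBall (0 : V) 1 → V := fun y =>
    H (⟨‖y.1‖, norm_nonneg _, mem_closedBall_zero_iff.1 y.2⟩, u y.1)
  let q : I × Metric.sphere (0 : V) 1 → Metric.closedBall (0 : V) 1 := fun z =>
    ⟨(z.1 : ℝ) • z.2.1, by
      rw [mem_closedBall_zero_iff, norm_smul, mem_sphere_zero_iff_norm.1 z.2.2, mul_one,
        Real.norm_of_nonneg z.1.2.1]
      exact z.1.2.2⟩
  have hqc : Continuous q := Continuous.subtype_mk (by fun_prop) _
  have hu : ∀ y : V, ‖y‖ • (u y).1 = y := by
    intro y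
    by_cases h : y = 0
    · simp [h]
    · simp only [u, dif_neg h]
      rw [smul_smul, mul_inv_cancel₀ (norm_ne_zero_iff.2 h), one_smul]
  have hq : IsQuotientMap q := hqc.isClosedMap.isQuotientMap hqc (fun y =>
    ⟨(⟨‖y.1‖, norm_nonneg _, mem_closedBall_zero_iff.1 y.2⟩, u y.1), Subtype.ext (hu y.1)⟩)
  have hG : Continuous G := by
    refine hq.continuous_iff.2 ((continuous_subtype_val.comp H.continuous).congr ?_)
    rintro ⟨t, x⟩
    have hn : ‖(t : ℝ) • x.1‖ = t := by
      rw [norm_smul, mem_sphere_zero_iff_norm.1 x.2, mul_one, Real.norm_of_nonneg t.2.1]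
    have e1 : (⟨‖(q (t, x)).1‖, norm_nonneg _, mem_closedBall_zero_iff.1 (q (t, x)).2⟩ : I) = t :=
      Subtype.ext hn
    simp only [Function.comp_apply, G]
    rw [e1]
    by_cases ht : t = 0
    · rw [ht, h0, h0]
    · have ht' : (t : ℝ) ≠ 0 := fun h => ht (Subtype.ext h)
      have : u (q (t, x)).1 = x := by
        apply Subtype.ext
        have h2 := hu (q (t, x)).1
        have h3 : ‖(q (t, x)).1‖ = t := hn
        rw [h3] at h2
        exact smul_right_injective V ht' h2
      rw [this]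
  let ρ : V → Metric.closedBall (0 : V) 1 := fun y => ⟨(max 1 ‖y‖)⁻¹ • y, by
    have h : 0 < max 1 ‖y‖ := lt_of_lt_of_le one_pos (le_max_left _ _)
    rw [mem_closedBall_zero_iff, norm_smul, norm_inv, Real.norm_of_nonneg h.le,
      inv_mul_le_iff₀ h, mul_one]
    exact le_max_right _ _⟩
  have hρ : Continuous ρ := by
    refine Continuous.subtype_mk (Continuous.smul (Continuous.inv₀
      (continuous_const.max continuous_norm) (fun y => ?_))
      continuous_id) _
    exact (lt_of_lt_of_le one_pos (le_max_left _ _)).ne'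
  have hGn : ∀ y, ‖G y‖ = 1 := fun y => mem_sphere_zero_iff_norm.1 (Subtype.prop _)
  obtain ⟨y, hy⟩ := Pool.Agent.Helper31.GZ.Brouwer.brouwer (fun y => -G (ρ y))
    (hG.comp hρ).neg 1 (fun y => by rw [norm_neg, hGn])
  have hy1 : ‖y‖ = 1 := by rw [← hy, norm_neg, hGn]
  have e1 : (ρ y).1 = y := by simp [ρ, hy1]
  have e2 : G (ρ y) = y := by
    have e3 : (⟨‖(ρ y).1‖, norm_nonneg _, mem_closedBall_zero_iff.1 (ρ y).2⟩ : I) = 1 :=
      Subtype.ext (by simp only [e1, hy1]; rfl)
    simp only [G]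
    rw [e3, h1, e1]
    have := hu y
    rwa [hy1, one_smul] at this
  rw [e2] at hy
  have : y = 0 := by
    have h2 : (2 : ℝ) • y = 0 := by rw [two_smul]; nth_rewrite 1 [← hy]; simp
    exact (smul_eq_zero.1 h2).resolve_left two_ne_zero
  rw [this, norm_zero] at hy1
  exact zero_ne_one hy1

lemma sph_not_contr {n : ℕ} :
    ¬ (ContinuousMap.id (Sph n)).Homotopic (ContinuousMap.const (Sph n) ∞) := by
  intro h
  obtain ⟨H⟩ := h.symm
  let φ : Sph n ≃ₜ Metric.sphere (0 : EuclideanSpace ℝ (Fin (n + 1))) 1 :=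
    onePointEquivSphereOfFinrankEq (by simp)
  refine sphere_not_contr (φ ∞) ⟨fun z => φ (H (z.1, φ.symm z.2)), by fun_prop⟩ (fun x => ?_)
    (fun x => ?_)
  · simp
  · simp

end Pool.Agent.H730Z.OS
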