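import Pool.Agent.H730Z.OS.Col

set_option autoImplicit false

namespace Pool.Agent.H730Z.OS

open scoped OnePoint Matrix unitInterval
open Topology Set

/-- the embedding `ℝ^{m+1} → S^m × S¹` -/
def eS (m : ℕ) (w : Rn (m + 1)) : Sph m × OnePoint ℝ :=
  (((Fin.init w : Rn m) : Sph m), (w (Fin.last m) : ℝ))

lemma eS_open (m : ℕ) : IsOpenEmbedding (eS m) := by
  let H : Rn (m + 1) ≃ₜ Rn m × ℝ :=
    { toFun := fun z => (Fin.init z, z (Fin.last m))
      invFun := fun z => Fin.snoc z.1 z.2
      left_inv := fun z => by simp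
      right_inv := fun z => by simp
      continuous_toFun := by fun_prop
      continuous_invFun := by fun_prop }
  exact (OnePoint.isOpenEmbedding_coe.prodMap OnePoint.isOpenEmbedding_coe).comp H.isOpenEmbedding

/-- stabilization of a map -/
def stf (X : OSp) {n m : ℕ} (f : Sph m → X.X n) (z : Sph (m + 1)) : X.X (n + 1) :=
  z.elim (X.pt (n + 1)) (fun w => X.σ n (f ((Fin.init w : Rn m) : Sph m)) (w (Fin.last m) : ℝ))

lemma stf_col (X : OSp) {n m : ℕ} (f : Sph m → X.X n) (hf : f ∞ = X.pt n) (x : Sph m)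
    (t : OnePoint ℝ) : stf X f (col (eS m) (x, t)) = X.σ n (f x) t := by
  induction x using OnePoint.rec with
  | infty =>
    rw [col_out (fun _ h => OnePoint.coe_ne_infty _ (congrArg Prod.fst h)), hf, X.σ_pt]; rfl
  | coe x =>
    induction t using OnePoint.rec with
    | infty =>
      rw [col_out (fun _ h => OnePoint.coe_ne_infty _ (congrArg Prod.snd h)), X.σ_infty]; rfl
    | coe t =>
      have := col_apply (eS_open m).injective (Fin.snoc x t : Rn (m + 1))
      simp only [eS, Fin.init_snoc, Fin.snoc_last] at this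
      rw [this]
      simp [stf]

lemma stf_cont (X : OSp) {n m : ℕ} {P : Type} [TopologicalSpace P] [CompactSpace P] [T2Space P]
    (F : P × Sph m → X.X n) (hF : Continuous F) (h : ∀ p, F (p, ∞) = X.pt n) :
    Continuous (fun z : P × Sph (m + 1) => stf X (fun x => F (z.1, x)) z.2) := by
  have hc : Continuous (Prod.map (id : P → P) (col (eS m))) :=
    continuous_id.prodMap (col_cont (eS_open m))
  have hq : IsQuotientMap (Prod.map (id : P → P) (col (eS m))) :=
    hc.isClosedMap.isQuotientMap hc (fun z => by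
      obtain ⟨p, z⟩ := z
      induction z using OnePoint.rec with
      | infty =>
        exact ⟨(p, (∞, ∞)), Prod.ext rfl
          (col_out (fun _ h => OnePoint.coe_ne_infty _ (congrArg Prod.fst h)))⟩
      | coe w => exact ⟨(p, eS m w), Prod.ext rfl (col_apply (eS_open m).injective w)⟩)
  refine hq.continuous_iff.2 ?_
  have : Continuous (fun z : P × (Sph m × OnePoint ℝ) => X.σ n (F (z.1, z.2.1)) z.2.2) :=
    (X.σ_cont n).comp ((hF.comp (by fun_prop)).prodMk (by fun_prop))
  exact this.congr (fun z => (stf_col X (fun x => F (z.1, x)) (h z.1) z.2.1 z.2.2).symm)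

/-- stabilization of a continuous map -/
def stc (X : OSp) {n m : ℕ} (f : C(Sph m, X.X n)) (hf : f ∞ = X.pt n) :
    C(Sph (m + 1), X.X (n + 1)) :=
  ⟨stf X f, (stf_cont X (P := Unit) (fun z => f z.2) (by fun_prop) (fun _ => hf)).comp
    (Continuous.prodMk_right ())⟩

/-- stabilization of a representative -/
def Rep.st {X : OSp} {k : ℤ} (a : Rep X k) : Rep X k :=
  ⟨a.n + 1, a.m + 1, by have := a.deg; push_cast; omega, stc X a.map a.based, rfl⟩

/-- based homotopy of representatives -/
inductive Htp {X : OSp} {k : ℤ} : Rep X k → Rep X k → Prop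
  | mk (n m : ℕ) (deg : (m : ℤ) = k + n) (f g : C(Sph m, X.X n)) (hf : f ∞ = X.pt n)
      (hg : g ∞ = X.pt n) : f.HomotopicRel g {∞} → Htp ⟨n, m, deg, f, hf⟩ ⟨n, m, deg, g, hg⟩

lemma Htp.eq {X : OSp} {k : ℤ} {a b : Rep X k} (h : Htp a b) : a.n = b.n ∧ a.m = b.m := by
  cases h; exact ⟨rfl, rfl⟩

lemma Htp.inv {X : OSp} {k : ℤ} {n m : ℕ} {d d' : (m : ℤ) = k + n} {f g : C(Sph m, X.X n)}
    {hf : f ∞ = X.pt n} {hg : g ∞ = X.pt n} (h : Htp ⟨n, m, d, f, hf⟩ ⟨n, m, d', g, hg⟩) :
    f.HomotopicRel g {∞} := by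
  cases h; assumption

lemma Htp.refl {X : OSp} {k : ℤ} (a : Rep X k) : Htp a a :=
  Htp.mk a.n a.m a.deg a.map a.map a.based a.based (ContinuousMap.HomotopicRel.refl _)

lemma Htp.symm {X : OSp} {k : ℤ} {a b : Rep X k} (h : Htp a b) : Htp b a := by
  cases h with
  | mk n m deg f g hf hg H => exact Htp.mk n m deg g f hg hf H.symm

lemma Htp.trans {X : OSp} {k : ℤ} {a b c : Rep X k} (h : Htp a b) (h' : Htp b c) : Htp a c := by
  cases h with
  | mk n m deg f g hf hg H =>
    obtain ⟨n', m', d', e, he⟩ := c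
    obtain ⟨h1, h2⟩ := h'.eq
    simp only at h1 h2
    subst h1 h2
    exact Htp.mk _ _ deg f e hf he (H.trans h'.inv)

lemma Htp.st {X : OSp} {k : ℤ} {a b : Rep X k} (h : Htp a b) : Htp a.st b.st := by
  cases h with
  | mk n m deg f g hf hg H =>
    obtain ⟨H⟩ := H
    have hH : ∀ t : I, H (t, ∞) = X.pt n := fun t => (H.eq_fst t rfl).trans hf
    refine Htp.mk (n + 1) (m + 1) _ (stc X f hf) (stc X g hg) rfl rfl ⟨?_⟩
    exact
      { toFun := fun z => stf X (fun x => H (z.1, x)) z.2
        continuous_toFun := stf_cont X H H.continuous hH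
        map_zero_left := fun z => by simp [stc]
        map_one_left := fun z => by simp [stc]
        prop' := fun t z hz => by
          rw [mem_singleton_iff] at hz
          subst hz
          rfl }

lemma Htp.iter {X : OSp} {k : ℤ} {a b : Rep X k} (h : Htp a b) :
    ∀ i, Htp (Rep.st^[i] a) (Rep.st^[i] b)
  | 0 => h
  | i + 1 => by
    rw [Function.iterate_succ_apply', Function.iterate_succ_apply']
    exact (h.iter i).st

/-- homotopic after stabilization -/
def RR {X : OSp} {k : ℤ} (a b : Rep X k) : Prop := ∃ i j, Htp (Rep.st^[i] a) (Rep.st^[j] b)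

lemma RR.trans {X : OSp} {k : ℤ} {a b c : Rep X k} (h : RR a b) (h' : RR b c) : RR a c := by
  obtain ⟨i, j, h⟩ := h
  obtain ⟨i', j', h'⟩ := h'
  have h1 := h.iter i'
  have h2 := h'.iter j
  rw [← Function.iterate_add_apply, ← Function.iterate_add_apply] at h1 h2
  rw [add_comm i' j] at h1
  exact ⟨_, _, h1.trans h2⟩

lemma RR.symm {X : OSp} {k : ℤ} {a b : Rep X k} (h : RR a b) : RR b a := by
  obtain ⟨i, j, h⟩ := h
  exact ⟨j, i, h.symm⟩

lemma Rel.rr {X : OSp} {k : ℤ} {a b : Rep X k} (h : Rel X k a b) : RR a b := by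
  cases h with
  | htpy n m deg f g hf hg H => exact ⟨0, 0, Htp.mk n m deg f g hf hg H⟩
  | stab n m deg deg' f g hf hg H =>
    have : g = stc X f hf := by
      ext z
      induction z using OnePoint.rec with
      | infty => exact hg
      | coe w =>
        have := H (Fin.init w) (w (Fin.last m))
        rw [Fin.snoc_init_self] at this
        exact this
    subst this
    exact ⟨1, 0, Htp.refl _⟩

lemma rr_of_eq {X : OSp} {k : ℤ} {a b : Rep X k} (h : Quot.mk (Rel X k) a = Quot.mk (Rel X k) b) :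
    RR a b := by
  let φ : Quot (Rel X k) → Prop := Quot.lift (fun c => RR a c)
    (fun c d hcd => propext ⟨fun h => h.trans hcd.rr, fun h => h.trans hcd.rr.symm⟩)
  have h1 : φ (Quot.mk _ a) := ⟨0, 0, Htp.refl a⟩
  rw [h] at h1
  exact h1

lemma mk_st {X : OSp} {k : ℤ} (a : Rep X k) : Quot.mk (Rel X k) a.st = Quot.mk (Rel X k) a := by
  refine (Quot.sound (Rel.stab a.n a.m a.deg _ a.map (stc X a.map a.based) a.based rfl
    (fun v t => ?_))).symm
  simp [stc, stf]

lemma mk_iter {X : OSp} {k : ℤ} (a : Rep X k) :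
    ∀ i, Quot.mk (Rel X k) (Rep.st^[i] a) = Quot.mk (Rel X k) a
  | 0 => rfl
  | i + 1 => by rw [Function.iterate_succ_apply', mk_st, mk_iter a i]

lemma Htp.mk_eq {X : OSp} {k : ℤ} {a b : Rep X k} (h : Htp a b) :
    Quot.mk (Rel X k) a = Quot.mk (Rel X k) b := by
  cases h with
  | mk n m deg f g hf hg H => exact Quot.sound (Rel.htpy n m deg f g hf hg H)

lemma push_st {X Y : OSp} (φ : Hom X Y) {k : ℤ} (a : Rep X k) : (a.push φ).st = a.st.push φ := by
  have : stc Y (a.push φ).map (a.push φ).based = (a.st.push φ).map := by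
    ext z
    induction z using OnePoint.rec with
    | infty => exact (φ.map_pt _).symm
    | coe w => exact (φ.map_σ ..).symm
  simp only [Rep.st, this]
  rfl

lemma push_iter {X Y : OSp} (φ : Hom X Y) {k : ℤ} (a : Rep X k) :
    ∀ i, Rep.st^[i] (a.push φ) = (Rep.st^[i] a).push φ
  | 0 => rfl
  | i + 1 => by
    rw [Function.iterate_succ_apply', Function.iterate_succ_apply', push_iter φ a i, push_st]

/-- a levelwise retraction gives injectivity on homotopy groups -/
lemma inj_of_retract {X Y : OSp} (φ : Hom X Y) (r : ∀ n, C(Y.X n, X.X n))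
    (hr : ∀ n x, r n (φ.f n x) = x) (k : ℤ) : Function.Injective (StablePi.map φ k) := by
  intro a b hab
  induction a using Quot.ind with
  | mk a =>
  induction b using Quot.ind with
  | mk b =>
  obtain ⟨i, j, h⟩ := rr_of_eq (show Quot.mk (Rel Y k) (a.push φ) = Quot.mk _ (b.push φ) from hab)
  rw [push_iter, push_iter] at h
  have key : ∀ a' b' : Rep X k, Htp (a'.push φ) (b'.push φ) → Htp a' b' := by
    rintro ⟨n, m, d, f, hf⟩ ⟨n', m', d', g, hg⟩ h
    obtain ⟨h1, h2⟩ := h.eq
    simp only [Rep.push] at h1 h2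
    subst h1 h2
    have h3 := (Htp.inv h).comp_continuousMap (r n)
    refine Htp.mk _ _ d f g hf hg ?_
    convert h3 using 1 <;> ext x <;> exact (hr n _).symm
  exact (mk_iter a i).symm.trans ((key _ _ h).mk_eq.trans (mk_iter b j))

end Pool.Agent.H730Z.OS
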