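import Pool.Agent.H730Z.OS.Ex
import Pool.Agent.H730Z.OS.Stab
import Pool.Agent.H730Z.OS.Fam

set_option autoImplicit false

namespace Pool.Agent.H730Z.OS

open scoped OnePoint Matrix unitInterval
open Topology Set

lemma col_eq_iff {A K : Type} {e : A → K} (he : Function.Injective e) (x : K) (a : A) :
    col e x = (a : OnePoint A) ↔ x = e a := by
  constructor
  · intro h
    by_cases h1 : ∃ a', e a' = x
    · obtain ⟨a', rfl⟩ := h1
      rw [col_apply he, OnePoint.coe_eq_coe] at h
      rw [h]
    · rw [col_out (fun a h' => h1 ⟨a, h'⟩)] at h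
      exact absurd h.symm (OnePoint.coe_ne_infty a)
  · rintro rfl; exact col_apply he a

lemma onePoint_ext {A : Type} {x y : OnePoint A} (h : ∀ a : A, x = a ↔ y = a) : x = y := by
  induction x using OnePoint.rec with
  | coe a => exact ((h a).1 rfl).symm
  | infty =>
    induction y using OnePoint.rec with
    | coe a => exact (h a).2 rfl
    | infty => rfl

section
variable {T : Type} [TopologicalSpace T] [LocallyCompactSpace T] [T2Space T]
variable {T' : Type} [TopologicalSpace T'] [LocallyCompactSpace T'] [T2Space T']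

lemma sσ_eq_iff {s : T → T} (hs : IsOpenEmbedding s) (n : ℕ) (x : OnePoint (Rn n × T))
    (t : OnePoint ℝ) (u : Rn (n + 1)) (τ : T) :
    sσ s n x t = ((u, τ) : Rn (n + 1) × T) ↔
      x = ((Fin.init u, s τ) : Rn n × T) ∧ t = (u (Fin.last n) : ℝ) := by
  rw [sσ, col_eq_iff (eσ_open hs n).injective, eσ, Prod.mk.injEq]

/-- morphisms induced by proper maps -/
noncomputable def EH {s : T → T} (hs : IsOpenEmbedding s) {s' : T' → T'} (hs' : IsOpenEmbedding s')
    (φ : T → T') (hφ : IsProperMap φ) (h1 : ∀ τ, φ (s τ) = s' (φ τ))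
    (h2 : ∀ τ, φ τ ∈ range s' → τ ∈ range s) : Hom (E s hs) (E s' hs') where
  f _ := OnePoint.map (Prod.map id φ)
  cont _ := map_cont (isProperMap_id.prodMap hφ)
  map_pt _ := rfl
  map_act n g x := by
    induction x using OnePoint.rec with
    | infty => rfl
    | coe x => rfl
  map_σ n x t := by
    change OnePoint.map (Prod.map id φ) (sσ s n x t) = sσ s' n (OnePoint.map (Prod.map id φ) x) t
    induction t using OnePoint.rec with
    | infty => rw [sσ_infty_right, sσ_infty_right]; rfl
    | coe t =>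
    induction x using OnePoint.rec with
    | infty => rw [sσ_infty_left, OnePoint.map_infty, OnePoint.map_infty, sσ_infty_left]
    | coe x =>
      obtain ⟨v, τ⟩ := x
      by_cases h : τ ∈ range s
      · obtain ⟨τ', rfl⟩ := h
        rw [sσ_some hs, OnePoint.map_some, OnePoint.map_some, Prod.map_apply, Prod.map_apply, h1,
          id, id, sσ_some hs']
      · rw [sσ_out _ _ h, OnePoint.map_some, Prod.map_apply, sσ_out _ _ (fun h' => h (h2 τ h'))]
        rfl
end

/-- the convergent sequence -/
abbrev B := OnePoint ℕ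

/-- the shift -/
def sB : B → B := OnePoint.map Nat.succ

lemma sB_open : IsOpenEmbedding sB := by
  have hc : Continuous sB := map_cont
    (Function.LeftInverse.isClosedEmbedding (f := Nat.pred) (g := Nat.succ) Nat.pred_succ
      continuous_of_discreteTopology continuous_of_discreteTopology).isProperMap
  have hi : Function.Injective sB := by
    intro a b h
    induction a using OnePoint.rec <;> induction b using OnePoint.rec <;> simp_all [sB]
  refine ⟨(hc.isClosedEmbedding hi).isEmbedding, ?_⟩
  have : range sB = {((0 : ℕ) : B)}ᶜ := by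
    ext x
    induction x using OnePoint.rec with
    | infty => simpa using ⟨∞, rfl⟩
    | coe a =>
      cases a with
      | zero =>
        simp only [mem_range, mem_compl_iff, mem_singleton_iff, not_true, iff_false, not_exists]
        intro y
        induction y using OnePoint.rec <;> simp [sB]
      | succ a => simpa using ⟨a, rfl⟩
  rw [this]
  exact isClosed_singleton.isOpen_compl

/-- the sphere spectrum -/
noncomputable abbrev Y0 : OSp := E (id : Unit → Unit) IsOpenEmbedding.id

/-- the modified sphere spectrum -/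
noncomputable abbrev Y1 : OSp := E sB sB_open

lemma proper_inf : IsProperMap (fun _ : Unit => (∞ : B)) :=
  (Function.LeftInverse.isClosedEmbedding (f := fun _ : B => ()) (fun _ => rfl)
    continuous_const continuous_const).isProperMap

/-- the stable equivalence -/
noncomputable def ff : Hom Y0 Y1 :=
  EH IsOpenEmbedding.id sB_open (fun _ => ∞) proper_inf (fun _ => rfl) (fun τ _ => ⟨τ, rfl⟩)

/-- the levelwise retraction -/
def rr (n : ℕ) : C(Y1.X n, Y0.X n) :=
  ⟨OnePoint.map (Prod.map id (fun _ : B => ())), map_cont (isProperMap_id.prodMap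
    continuous_const.isProperMap)⟩

lemma rr_ff (n : ℕ) (x : Y0.X n) : rr n (ff.f n x) = x := by
  induction x using OnePoint.rec with
  | infty => rfl
  | coe x => rfl

/-- only indices below `N` meet the unit ball -/
def PP {k : ℤ} (a : Rep Y1 k) (N : ℕ) : Prop :=
  ∀ (x : Rn a.m) (v : Rn a.n) (j : ℕ),
    a.map x = (((v, (j : B)) : Rn a.n × B) : OnePoint (Rn a.n × B)) → ‖v‖ ≤ 1 → j < N

lemma PP.st {k : ℤ} {a : Rep Y1 k} {N : ℕ} (h : PP a (N + 1)) : PP a.st N := by
  intro x v j hx hv
  have h1 := (sσ_eq_iff sB_open a.n _ _ v (j : B)).1 hx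
  have h2 : ‖(Fin.init v : Rn a.n)‖ ≤ 1 :=
    (pi_norm_le_iff_of_nonneg zero_le_one).2 (fun i => (norm_le_pi_norm v _).trans hv)
  have := h _ _ (j + 1) h1.1 h2
  omega

lemma exists_PP {k : ℤ} (a : Rep Y1 k) : ∃ N, PP a N := by
  obtain ⟨n, m, d, g, hg⟩ := a
  change C(Sph m, OnePoint (Rn n × B)) at g
  change g ∞ = ∞ at hg
  let β : OnePoint (Rn n × B) → B := fun y => y.elim ∞ Prod.snd
  let L : Set (OnePoint (Rn n × B)) := (↑) '' ((Metric.closedBall (0 : Rn n) 1) ×ˢ (univ : Set B))
  have hL : IsCompact L :=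
    ((isCompact_closedBall _ _).prod isCompact_univ).image OnePoint.continuous_coe
  have hK : IsCompact (g ⁻¹' L) := (hL.isClosed.preimage g.continuous).isCompact
  have hfin : ((β ∘ g) '' (g ⁻¹' L)).Finite := by
    refine hK.induction_on (p := fun S => ((β ∘ g) '' S).Finite) (by simp)
      (fun S S' hS h => h.subset (image_mono hS))
      (fun S S' h h' => by rw [image_union]; exact h.union h') (fun x hx => ?_)
    induction x using OnePoint.rec with
    | infty =>
      obtain ⟨z, -, hz⟩ := hx
      exact absurd (hz.trans hg) (OnePoint.coe_ne_infty _)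
    | coe x =>
      have hU : IsOpen ((fun y : Rn m => g y) ⁻¹' (range ((↑) : Rn n × B → OnePoint (Rn n × B)))) :=
        OnePoint.isOpen_range_coe.preimage (g.continuous.comp OnePoint.continuous_coe)
      obtain ⟨z, -, hz⟩ := hx
      obtain ⟨ε, hε, hb⟩ := Metric.isOpen_iff.1 hU x ⟨z, hz⟩
      refine ⟨(↑) '' Metric.ball x ε, mem_nhdsWithin_of_mem_nhds
        (OnePoint.isOpenEmbedding_coe.isOpenMap.image_mem_nhds (Metric.ball_mem_nhds x hε)), ?_⟩
      rw [← image_comp]
      refine (IsPreconnected.image (convex_ball x ε).isPreconnected _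
        (fun y hy => ContinuousAt.continuousWithinAt ?_)).subsingleton.finite
      obtain ⟨w, hw⟩ := hb hy
      have h1 : ContinuousAt β (g y) := by
        have hw' : g y = w := hw.symm
        rw [hw', OnePoint.continuousAt_coe]
        exact continuous_snd.continuousAt
      exact ContinuousAt.comp (f := fun y : Rn m => g y) h1
        (g.continuous.comp OnePoint.continuous_coe).continuousAt
  obtain ⟨N, hN⟩ := (hfin.preimage (f := ((↑) : ℕ → B)) OnePoint.coe_injective.injOn).bddAbove
  refine ⟨N + 1, fun x v j hx hv => Nat.lt_succ_of_le (hN ⟨x, ⟨(v, j), ⟨?_, trivial⟩, hx.symm⟩, ?_⟩)⟩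
  · exact mem_closedBall_zero_iff.2 hv
  · exact congrArg β hx

lemma surj_zero {k : ℤ} (a : Rep Y1 k) (h : PP a 0) :
    ∃ b : Rep Y0 k, Quot.mk (Rel Y1 k) (b.push ff) = Quot.mk _ a := by
  obtain ⟨n, m, d, g, hg⟩ := a
  have he := fam_prod (T := B) (e := fun t : I => ef (0 : Rn n) 1 t)
    (ef_open 0 1 (fun _ => zero_le_one))
  obtain ⟨C, hC⟩ := exists_fam (e := fun (t : I) (z : Rn n × B) => (ef (0 : Rn n) 1 t z.1, z.2)) he
  have hinf : ∀ t, C (t, ∞) = ∞ := fun t => by
    rw [hC]; exact col_out (fun _ => OnePoint.coe_ne_infty _)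
  let g1 : C(Sph m, OnePoint (Rn n × B)) := C.comp ((ContinuousMap.const _ 1).prodMk g)
  have hg1 : g1 ∞ = ∞ := by
    change C (1, g ∞) = ∞
    rw [hg]; exact hinf 1
  refine ⟨⟨n, m, d, (rr n).comp g1, congrArg (rr n) hg1⟩, (Htp.mk_eq ?_).symm⟩
  refine Htp.mk n m d g _ hg _ ⟨?_⟩
  exact
    { toFun := fun z => C (z.1, g z.2)
      continuous_toFun := C.continuous.comp (continuous_fst.prodMk
        (g.continuous.comp continuous_snd))
      map_zero_left := fun x => by
        simp only [hC, Set.Icc.coe_zero, ef_zero]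
        exact col_coe _
      map_one_left := fun x => by
        change C (1, g x) = ff.f n (rr n (C (1, g x)))
        generalize hy : C (1, g x) = y
        induction y using OnePoint.rec with
        | infty => rfl
        | coe y =>
          obtain ⟨v, τ⟩ := y
          induction τ using OnePoint.rec with
          | infty => rfl
          | coe j =>
            exfalso
            rw [hC] at hy
            replace hy := (col_eq_iff (OnePoint.coe_injective.comp (slice_open
              (e := fun (t : I) (z : Rn n × B) => (ef (0 : Rn n) 1 t z.1, z.2)) he 1).injective)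
                _ _).1 hy
            induction x using OnePoint.rec with
            | infty => exact OnePoint.coe_ne_infty _ (hy.symm.trans hg)
            | coe x =>
              refine absurd (h x _ j hy ?_) (Nat.not_lt_zero j)
              refine (pi_norm_le_iff_of_nonneg zero_le_one).2 (fun i => ?_)
              have : 0 < 1 + |v i| := by positivity
              simp only [ef, Set.Icc.coe_one, Pi.zero_apply, Pi.one_apply, mul_zero, zero_add,
                one_mul, Real.norm_eq_abs, abs_div, abs_of_pos this]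
              rw [div_le_one this]
              linarith
      prop' := fun t x hx => by
        rw [mem_singleton_iff] at hx
        subst hx
        change C (t, g ∞) = g ∞
        rw [hg]; exact hinf t }

lemma ff_equiv : IsStableEquiv ff := by
  intro k
  refine ⟨inj_of_retract ff rr rr_ff k, fun a => ?_⟩
  induction a using Quot.ind with
  | mk a =>
  obtain ⟨N, hN⟩ := exists_PP a
  have key : ∀ N (a : Rep Y1 k), PP a N →
      ∃ b : Rep Y0 k, Quot.mk (Rel Y1 k) (b.push ff) = Quot.mk _ a := by
    intro N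
    induction N with
    | zero => exact surj_zero
    | succ N ih =>
      intro a ha
      obtain ⟨b, hb⟩ := ih a.st ha.st
      exact ⟨b, hb.trans (mk_st a)⟩
  obtain ⟨b, hb⟩ := key N a hN
  exact ⟨Quot.mk _ b, hb⟩

/-- suspension spectrum of the convergent sequence based at its limit -/
noncomputable abbrev X0 : OSp := E (id : ℕ → ℕ) IsOpenEmbedding.id

/-- `X0 ∧ Y0` -/
noncomputable abbrev Z0 : OSp :=
  E (Prod.map id id : ℕ × Unit → ℕ × Unit) (IsOpenEmbedding.id.prodMap IsOpenEmbedding.id)

/-- `X0 ∧ Y1` -/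
noncomputable abbrev Z1 : OSp :=
  E (Prod.map id sB : ℕ × B → ℕ × B) (IsOpenEmbedding.id.prodMap sB_open)

/-- `X0 ∧ ff` -/
noncomputable def gg : Hom Z0 Z1 :=
  EH _ _ (Prod.map id (fun _ => ∞)) (isProperMap_id.prodMap proper_inf) (fun _ => rfl)
    (fun τ _ => ⟨τ, rfl⟩)

lemma gg_bb (p q n : ℕ) (h : p + q = n) (x : X0.X p) (y : Y0.X q) :
    gg.f n ((BB ℕ id IsOpenEmbedding.id).b p q n h x y) =
      (BB ℕ sB sB_open).b p q n h x (ff.f q y) := by
  change OnePoint.map (Prod.map id (Prod.map id (fun _ => (∞ : B)))) (bb ℕ id h x y) =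
    bb ℕ sB h x (OnePoint.map (Prod.map id (fun _ => (∞ : B))) y)
  induction x using OnePoint.rec with
  | infty => rw [bb_infty_left, bb_infty_left]; rfl
  | coe x =>
    induction y using OnePoint.rec with
    | infty => rw [bb_infty_right, OnePoint.map_infty, OnePoint.map_infty, bb_infty_right]
    | coe y =>
      have e1 := bb_some (T := ℕ) (IsOpenEmbedding.id (X := Unit)) h x.1 x.2 y.1 ()
      have e2 := bb_some (T := ℕ) sB_open h x.1 x.2 y.1 ∞
      rw [Function.iterate_fixed (f := sB) (x := ∞) rfl] at e2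
      exact (congrArg _ e1).trans e2.symm

/-- centre of the `j`-th interval -/
noncomputable def cc (i j : ℕ) : Rn (i + 1) := Pi.single 0 ((j : ℝ) + 1 / 2)

/-- scale -/
def kk (i : ℕ) : Rn (i + 1) := Pi.single 0 2

lemma kk_nonneg (i : ℕ) (l : Fin (i + 1)) : 0 ≤ kk i l := by
  unfold kk
  by_cases h : l = 0
  · subst h; simp
  · simp [h]

/-- the embedding onto the `j`-th slab -/
noncomputable def ep (i j : ℕ) : Rn (i + 1) → Rn (i + 1) := ef (cc i j) (kk i) ((1 : I) : ℝ)

lemma ep_open (i j : ℕ) : IsOpenEmbedding (ep i j) :=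
  slice_open (e := fun t : I => ef (cc i j) (kk i) t) (ef_open _ _ (kk_nonneg i)) 1

lemma ep_zero (i j : ℕ) (u : Rn (i + 1)) : ep i j u 0 = j + 1 / 2 + u 0 / (1 + 2 * |u 0|) := by
  simp [ep, ef, cc, kk]

lemma ep_succ (i j : ℕ) (u : Rn (i + 1)) (l : Fin i) : ep i j u l.succ = u l.succ := by
  simp [ep, ef, cc, kk]

lemma ep_snoc (i j : ℕ) (u : Rn (i + 1 + 1)) :
    ep (i + 1) j u = Fin.snoc (ep i j (Fin.init u)) (u (Fin.last (i + 1))) := by
  funext l
  refine Fin.lastCases ?_ (fun l => ?_) l
  · rw [Fin.snoc_last, ← Fin.succ_last, ep_succ]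
  · rw [Fin.snoc_castSucc]
    refine Fin.cases ?_ (fun l => ?_) l
    · rw [Fin.castSucc_zero, ep_zero, ep_zero]; rfl
    · rw [← Fin.succ_castSucc, ep_succ, ep_succ]; rfl

/-- disjoint union of the intervals -/
noncomputable def eta (z : Rn 1 × ℕ) : Sph 1 := (ep 0 z.2 z.1 : Rn 1)

lemma eta_open : IsOpenEmbedding eta := by
  refine IsOpenEmbedding.of_continuous_injective_isOpenMap ?_ ?_ ?_
  · exact continuous_prod_of_discrete_right.2
      (fun j => OnePoint.continuous_coe.comp (ep_open 0 j).continuous)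
  · rintro ⟨u, j⟩ ⟨u', j'⟩ h
    have h1 : ep 0 j u = ep 0 j' u' := OnePoint.coe_injective h
    have h2 := congrFun h1 0
    rw [ep_zero, ep_zero] at h2
    have hb : ∀ x : ℝ, |x / (1 + 2 * |x|)| < 1 / 2 := fun x => by
      have : 0 < 1 + 2 * |x| := by positivity
      rw [abs_div, abs_of_pos this, div_lt_iff₀ this]
      linarith
    have h3 := abs_lt.1 (hb (u 0))
    have h4 := abs_lt.1 (hb (u' 0))
    have h5 : (j : ℝ) < j' + 1 := by linarith
    have h6 : (j' : ℝ) < j + 1 := by linarith
    have h7 : j < j' + 1 := by exact_mod_cast h5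
    have h8 : j' < j + 1 := by exact_mod_cast h6
    obtain rfl : j = j' := by omega
    rw [(ep_open 0 j).injective h1]
  · exact isOpenMap_prod_of_discrete_right.2
      (fun j => OnePoint.isOpenEmbedding_coe.isOpenMap.comp (ep_open 0 j).isOpenMap)

/-- the diagonal -/
def dl (z : Rn 1 × ℕ) : Rn 1 × (ℕ × B) := (z.1, (z.2, (z.2 : B)))

lemma dl_proper : IsProperMap dl :=
  (Function.LeftInverse.isClosedEmbedding (f := fun z : Rn 1 × (ℕ × B) => (z.1, z.2.1))
    (fun _ => rfl) (by fun_prop) (continuous_fst.prodMk (continuous_snd.prodMk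
      (OnePoint.continuous_coe.comp continuous_snd)))).isProperMap

/-- the infinite sum -/
noncomputable def aa : Rep Z1 0 :=
  ⟨1, 1, by simp, ⟨OnePoint.map dl ∘ col eta, (map_cont dl_proper).comp (col_cont eta_open)⟩,
    congrArg (OnePoint.map dl) (col_out (fun _ => OnePoint.coe_ne_infty _))⟩

lemma aa_iter (i : ℕ) : ∃ (A : C(Sph (i + 1), Z1.X (i + 1))) (hA : A ∞ = Z1.pt (i + 1)),
    Rep.st^[i] aa = ⟨i + 1, i + 1, by simp, A, hA⟩ ∧ ∀ (w u : Rn (i + 1)) (l : ℕ),
      A w = (((u, (i + l, (l : B))) : Rn (i + 1) × (ℕ × B)) : OnePoint (Rn (i + 1) × (ℕ × B))) ↔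
        w = ep i (i + l) u := by
  induction i with
  | zero =>
    refine ⟨aa.map, aa.based, rfl, fun w u l => ?_⟩
    rw [Nat.zero_add l]
    change OnePoint.map dl (col eta w) = ((dl (u, l) : Rn 1 × (ℕ × B)) : OnePoint _) ↔ _
    have h1 := col_eq_iff eta_open.injective (w : Sph 1) (u, l)
    rw [eta, OnePoint.coe_eq_coe] at h1
    rw [← h1]
    generalize col eta w = y
    induction y using OnePoint.rec with
    | infty => simp
    | coe y =>
      rw [OnePoint.map_some, OnePoint.coe_eq_coe, OnePoint.coe_eq_coe]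
      exact Function.Injective.eq_iff
        (Function.LeftInverse.injective (g := fun z : Rn 1 × (ℕ × B) => (z.1, z.2.1)) (fun _ => rfl))
  | succ i ih =>
    obtain ⟨A, hA, h1, h2⟩ := ih
    refine ⟨stc Z1 A hA, rfl, by rw [Function.iterate_succ_apply', h1]; rfl, fun w u l => ?_⟩
    refine (sσ_eq_iff (IsOpenEmbedding.id.prodMap sB_open) (i + 1) _ _ u (i + 1 + l, l)).trans ?_
    have e : i + 1 + l = i + (l + 1) := by omega
    rw [e, ep_snoc]
    refine (and_congr (h2 (Fin.init w) (Fin.init u) (l + 1)) OnePoint.coe_eq_coe).trans ?_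
    constructor
    · rintro ⟨h3, h4⟩
      rw [← h3, ← h4, Fin.snoc_init_self]
    · rintro rfl
      simp

lemma gg_not_equiv : ¬ IsStableEquiv gg := by
  intro h
  obtain ⟨c, hc⟩ := (h 0).2 (Quot.mk _ aa)
  induction c using Quot.ind with
  | mk c =>
  obtain ⟨j, i, hij⟩ := rr_of_eq (show Quot.mk (Rel Z1 0) (c.push gg) = Quot.mk _ aa from hc)
  obtain ⟨A, hA, h1, h2⟩ := aa_iter i
  rw [push_iter, h1] at hij
  generalize Rep.st^[j] c = c' at hij
  obtain ⟨n, m, d, c', hc'⟩ := c'
  obtain ⟨h3, h4⟩ := hij.eq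
  simp only [Rep.push] at h3 h4
  subst h3 h4
  have he : IsOpenEmbedding (fun u : Rn (i + 1) =>
      (((u, (i + 0, ((0 : ℕ) : B))) : Rn (i + 1) × (ℕ × B)) : OnePoint (Rn (i + 1) × (ℕ × B)))) := by
    refine OnePoint.isOpenEmbedding_coe.comp ?_
    refine IsOpenEmbedding.of_continuous_injective_isOpenMap (by fun_prop)
      (fun a b h => congrArg Prod.fst h) (fun S hS => ?_)
    rw [← prod_singleton, ← singleton_prod_singleton]
    refine hS.prod ((isOpen_discrete _).prod ?_)
    rw [← image_singleton]
    exact OnePoint.isOpenEmbedding_coe.isOpenMap _ (isOpen_discrete _)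
  let ρ : C(Z1.X (i + 1), Sph (i + 1)) :=
    ⟨_, col_cont (K := OnePoint (Rn (i + 1) × (ℕ × B))) he⟩
  have H := ((Htp.inv hij).comp_continuousMap ρ).homotopic
  obtain ⟨C, hC⟩ := exists_fam (e := fun t : I => ef (cc i (i + 0)) (kk i) t)
    (ef_open _ _ (kk_nonneg i))
  have H1 : (ContinuousMap.id (Sph (i + 1))).Homotopic (ρ.comp A) := ⟨
    { toContinuousMap := C
      map_zero_left := fun x => by
        simp only [ContinuousMap.toFun_eq_coe, hC, Set.Icc.coe_zero, ef_zero]
        exact col_coe _
      map_one_left := fun x => by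
        simp only [ContinuousMap.toFun_eq_coe, hC]
        refine onePoint_ext (fun u => ?_)
        refine (col_eq_iff (OnePoint.coe_injective.comp (ep_open i (i + 0)).injective) x u).trans ?_
        refine Iff.trans ?_ (col_eq_iff he.injective (A x) u).symm
        induction x using OnePoint.rec with
        | infty =>
          exact iff_of_false (OnePoint.infty_ne_coe _)
            (fun h => OnePoint.infty_ne_coe _ (hA.symm.trans h))
        | coe x => exact OnePoint.coe_eq_coe.trans (h2 x u 0).symm }⟩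
  refine sph_not_contr (n := i + 1) (H1.trans (H.symm.trans ?_))
  have : ρ.comp ((⟨gg.f (i + 1), gg.cont (i + 1)⟩ : C(Z0.X (i + 1), Z1.X (i + 1))).comp c') =
      ContinuousMap.const _ ∞ := by
    ext x
    refine col_out (fun u hu => ?_)
    change _ = gg.f (i + 1) (c' x) at hu
    generalize c' x = y at hu
    induction y using OnePoint.rec with
    | infty => exact OnePoint.coe_ne_infty _ hu
    | coe y =>
      exact OnePoint.coe_ne_infty _ (congrArg (fun z => z.2.2) (OnePoint.coe_injective hu))
  exact this ▸ ContinuousMap.Homotopic.refl _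

theorem main : ∃ (X Y Y' Z Z' : OSp) (f : Hom Y Y') (b : Bimor X Y Z) (b' : Bimor X Y' Z')
    (g : Hom Z Z'), IsSmash b ∧ IsSmash b' ∧
      (∀ p q n h x y, g.f n (b.b p q n h x y) = b'.b p q n h x (f.f q y)) ∧
      IsStableEquiv f ∧ ¬ IsStableEquiv g :=
  ⟨X0, Y0, Y1, Z0, Z1, ff, BB ℕ id IsOpenEmbedding.id, BB ℕ sB sB_open, gg, BB_smash _ _,
    BB_smash _ _, gg_bb, ff_equiv, gg_not_equiv⟩

end Pool.Agent.H730Z.OS
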